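import Pool.Agent.H25.VT.Spec

set_option autoImplicit false

open MeasureTheory
open scoped ENNReal NNReal SchwartzMap FourierTransform

namespace Pool.Agent.Helper3.VT.ALG

open Pool.Agent.H25.VT

/-- `D ψ k ξ = ψ (2^{-k} ξ)` -/
theorem dil_zero {n : ℕ} (ψ : 𝓢(E n, ℂ)) (ξ : E n) : dil ψ 0 ξ = ψ ξ := by
  rw [dil_apply]; simp

theorem norm_half {n : ℕ} (k : ℕ) (ξ : E n) :
    ‖(2 : ℝ)⁻¹ ^ k • ξ‖ = 2 * ‖(2 : ℝ)⁻¹ ^ (k + 1) • ξ‖ := by
  rw [norm_smul, norm_smul, pow_succ]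
  simp only [norm_mul, norm_pow, norm_inv, Real.norm_ofNat]
  ring

theorem res_zero {n : ℕ} (φ : 𝓢(E n, ℂ)) (ξ : E n) : res φ 0 ξ = dil φ 0 ξ := by
  rw [dil_zero]; rfl

theorem res_succ {n : ℕ} (φ : 𝓢(E n, ℂ)) (k : ℕ) (ξ : E n) :
    res φ (k + 1) ξ = dil φ (k + 1) ξ - dil φ k ξ := rfl

theorem dil_one {n : ℕ} {φ : 𝓢(E n, ℂ)} (h : Admissible φ) (k : ℕ) (ξ : E n)
    (hx : ‖(2 : ℝ)⁻¹ ^ k • ξ‖ ≤ 1) : dil φ k ξ = 1 := by
  rw [dil_apply]; exact h.1 _ hx

theorem dil_zero' {n : ℕ} {φ : 𝓢(E n, ℂ)} (h : Admissible φ) (k : ℕ) (ξ : E n)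
    (hx : 2 < ‖(2 : ℝ)⁻¹ ^ k • ξ‖) : dil φ k ξ = 0 := by
  rw [dil_apply]; exact h.2 _ hx

/-- support of `res` -/
theorem res_supp {n : ℕ} {φ : 𝓢(E n, ℂ)} (h : Admissible φ) (j : ℕ) (ξ : E n)
    (hne : res φ j ξ ≠ 0) : ‖(2 : ℝ)⁻¹ ^ j • ξ‖ ≤ 2 ∧
      (∀ k, j = k + 1 → 1 < ‖(2 : ℝ)⁻¹ ^ k • ξ‖) := by
  rcases j with _ | k
  · refine ⟨?_, fun k hk => by omega⟩
    by_contra hc
    push Not at hc
    exact hne (by rw [res_zero, dil_zero' h 0 ξ hc])
  · constructor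
    · by_contra hc
      push Not at hc
      apply hne
      rw [res_succ, dil_zero' h (k + 1) ξ hc, dil_zero' h k ξ, sub_zero]
      rw [norm_half]
      linarith
    · intro k' hk'
      obtain rfl : k' = k := by omega
      by_contra hc
      push Not at hc
      apply hne
      have h2 := norm_half k' ξ
      have h3 : (0 : ℝ) ≤ ‖(2 : ℝ)⁻¹ ^ (k' + 1) • ξ‖ := norm_nonneg _
      rw [res_succ, dil_one h k' ξ hc, dil_one h (k' + 1) ξ (by linarith), sub_self]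

theorem main : S_ALG := by
  intro n φ ψ hφ hψ
  constructor
  · intro j ξ
    rw [← Finset.mul_sum]
    by_cases hne : res φ j ξ = 0
    · rw [hne, zero_mul]
    · obtain ⟨h1, h2⟩ := res_supp hφ j ξ hne
      have h3 : ‖(2 : ℝ)⁻¹ ^ (j + 1) • ξ‖ ≤ 1 := by
        have := norm_half j ξ
        linarith
      have h4 : dil ψ (j + 1) ξ = 1 := dil_one hψ (j + 1) ξ h3
      have key : ∑ i ∈ Finset.Icc (j - 1) (j + 1), res ψ i ξ = 1 := by
        rcases j with _ | _ | k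
        · have hs : Finset.Icc (0 - 1) (0 + 1) = ({0, 1} : Finset ℕ) := by decide
          rw [hs, Finset.sum_pair (by norm_num), res_zero]
          have : res ψ 1 ξ = dil ψ 1 ξ - dil ψ 0 ξ := rfl
          rw [this]
          have h5 : dil ψ 1 ξ = 1 := h4
          rw [h5]; ring
        · have hs : Finset.Icc (0 + 1 - 1) (0 + 1 + 1) = ({0, 1, 2} : Finset ℕ) := by decide
          rw [hs, Finset.sum_insert (by simp), Finset.sum_pair (by norm_num), res_zero]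
          have e1 : res ψ 1 ξ = dil ψ 1 ξ - dil ψ 0 ξ := rfl
          have e2 : res ψ 2 ξ = dil ψ 2 ξ - dil ψ 1 ξ := rfl
          have h5 : dil ψ 2 ξ = 1 := h4
          rw [e1, e2, h5]; ring
        · have hs : Finset.Icc (k + 1 + 1 - 1) (k + 1 + 1 + 1) = ({k + 1, k + 2, k + 3} : Finset ℕ) := by
            ext i
            simp only [Finset.mem_Icc, Finset.mem_insert, Finset.mem_singleton]
            omega
          rw [hs, Finset.sum_insert (by simp), Finset.sum_pair (by simp)]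
          have e1 : res ψ (k + 1) ξ = dil ψ (k + 1) ξ - dil ψ k ξ := rfl
          have e2 : res ψ (k + 2) ξ = dil ψ (k + 2) ξ - dil ψ (k + 1) ξ := rfl
          have e3 : res ψ (k + 3) ξ = dil ψ (k + 3) ξ - dil ψ (k + 2) ξ := rfl
          have h5 : dil ψ (k + 3) ξ = 1 := h4
          have h6 := h2 (k + 1) rfl
          have h7 := norm_half k ξ
          have h8 : dil ψ k ξ = 0 := dil_zero' hψ k ξ (by linarith)
          rw [e1, e2, e3, h5, h8]; ring
      rw [key, mul_one]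
  · intro i ξ
    by_cases hne : res ψ i ξ = 0
    · rw [hne, mul_zero]
    · obtain ⟨h1, -⟩ := res_supp hψ i ξ hne
      have h3 : ‖(2 : ℝ)⁻¹ ^ (i + 1) • ξ‖ ≤ 1 := by
        have := norm_half i ξ
        linarith
      rw [dil_one hφ (i + 1) ξ h3, one_mul]

end Pool.Agent.Helper3.VT.ALG
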