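import Pool.Agent.H25.VT.Spec

set_option autoImplicit false

open MeasureTheory
open scoped ENNReal NNReal SchwartzMap FourierTransform

namespace Pool.Agent.Helper3.VT.KER

open Pool.Agent.H25.VT

/-- averages are bounded by the maximal function -/
theorem int_ball_le {n : ℕ} (f : E n → ℝ≥0∞) (x : E n) (t : ℝ) (ht : 0 < t) :
    ∫⁻ y in Metric.ball x t, f y ≤ volume (Metric.ball x t) * MM f x := by
  have h0 : volume (Metric.ball x t) ≠ 0 := (Metric.measure_ball_pos volume x ht).ne'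
  have h1 : volume (Metric.ball x t) ≠ ∞ := measure_ball_lt_top.ne
  have h2 : (volume (Metric.ball x t))⁻¹ * ∫⁻ y in Metric.ball x t, f y ≤ MM f x :=
    le_iSup₂_of_le (f := fun (t : ℝ) (_ : 0 < t) =>
      (volume (Metric.ball x t))⁻¹ * ∫⁻ y in Metric.ball x t, f y) t ht le_rfl
  calc ∫⁻ y in Metric.ball x t, f y
      = volume (Metric.ball x t) * ((volume (Metric.ball x t))⁻¹ * ∫⁻ y in Metric.ball x t, f y) := by
        rw [← mul_assoc, ENNReal.mul_inv_cancel h0 h1, one_mul]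
    _ ≤ volume (Metric.ball x t) * MM f x := by gcongr

/-- The pointwise bound of the kernel by one of the annuli. -/
theorem eta_le {n : ℕ} (m : ℝ) (hm : 0 ≤ m) (j : ℕ) (z : E n) :
    ∃ k : ℕ, ‖z‖ < (2 : ℝ) ^ k / (2 : ℝ) ^ j ∧
      (2 : ℝ) ^ (j * n) * (1 + (2 : ℝ) ^ j * ‖z‖) ^ (-m) ≤
        (2 : ℝ) ^ (j * n) * (2 ^ m * ((2 : ℝ) ^ (-m)) ^ k) := by
  have h2j : (0 : ℝ) < 2 ^ j := by positivity
  -- the least `k` with `2^j |z| < 2^k`
  have hex : ∃ k : ℕ, (2 : ℝ) ^ j * ‖z‖ < 2 ^ k := pow_unbounded_of_one_lt _ (by norm_num)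
  classical
  let k := Nat.find hex
  have hk : (2 : ℝ) ^ j * ‖z‖ < 2 ^ k := Nat.find_spec hex
  refine ⟨k, ?_, ?_⟩
  · rw [lt_div_iff₀ h2j, mul_comm]
    exact hk
  · apply mul_le_mul_of_nonneg_left _ (by positivity)
    have hp : (0 : ℝ) < 2 ^ k := by positivity
    -- `2^(k-1) ≤ 1 + 2^j |z|`
    have h1 : (2 : ℝ) ^ k / 2 ≤ 1 + (2 : ℝ) ^ j * ‖z‖ := by
      rcases Nat.eq_zero_or_pos k with h0 | h0
      · rw [h0]
        have : 0 ≤ (2 : ℝ) ^ j * ‖z‖ := by positivity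
        norm_num
        linarith
      · have h3 : ¬ ((2 : ℝ) ^ j * ‖z‖ < 2 ^ (k - 1)) := Nat.find_min hex (by omega)
        have h4 : (2 : ℝ) ^ k = 2 ^ (k - 1) * 2 := by
          rw [← pow_succ]; congr 1; omega
        rw [h4]
        push Not at h3
        linarith
    have h2 : (1 + (2 : ℝ) ^ j * ‖z‖) ^ (-m) ≤ ((2 : ℝ) ^ k / 2) ^ (-m) :=
      Real.rpow_le_rpow_of_nonpos (by positivity) h1 (by linarith)
    refine h2.trans (le_of_eq ?_)
    rw [Real.div_rpow hp.le (by norm_num), ← Real.rpow_natCast 2 k, ← Real.rpow_mul (by norm_num),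
      ← Real.rpow_natCast ((2 : ℝ) ^ (-m)) k, ← Real.rpow_mul (by norm_num),
      Real.rpow_neg (by norm_num : (0 : ℝ) ≤ 2) m, div_inv_eq_mul, mul_comm]
    congr 2
    ring

theorem main : S_KER := by
  intro n m hn hm
  have hm0 : 0 ≤ m := by
    have : (0 : ℝ) ≤ n := Nat.cast_nonneg n
    linarith
  set q : ℝ := (2 : ℝ) ^ ((n : ℝ) - m) with hq
  have hq0 : 0 ≤ q := by positivity
  have hq1 : q < 1 := Real.rpow_lt_one_of_one_lt_of_neg (by norm_num) (by linarith)
  have hsum : Summable (fun k : ℕ => (2 : ℝ) ^ m * q ^ k) :=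
    (summable_geometric_of_lt_one hq0 hq1).mul_left _
  refine ⟨(∑' k : ℕ, ENNReal.ofReal ((2 : ℝ) ^ m * q ^ k)) * volume (Metric.ball (0 : E n) 1), ?_, ?_⟩
  · apply ENNReal.mul_ne_top
    · rw [← ENNReal.ofReal_tsum_of_nonneg (fun k => by positivity) hsum]
      exact ENNReal.ofReal_ne_top
    · exact measure_ball_lt_top.ne
  · intro j f hf x
    have h2j : (0 : ℝ) < 2 ^ j := by positivity
    -- pointwise
    have h1 : ∀ y : E n, eta j m (x - y) * f y ≤
        ∑' k : ℕ, ENNReal.ofReal ((2 : ℝ) ^ (j * n) * (2 ^ m * ((2 : ℝ) ^ (-m)) ^ k)) *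
          (Metric.ball x ((2 : ℝ) ^ k / 2 ^ j)).indicator f y := by
      intro y
      obtain ⟨k, hk1, hk2⟩ := eta_le m hm0 j (x - y)
      refine le_trans ?_ (ENNReal.le_tsum k)
      have hy : y ∈ Metric.ball x ((2 : ℝ) ^ k / 2 ^ j) := by
        rw [Metric.mem_ball, dist_comm, dist_eq_norm]
        exact hk1
      rw [Set.indicator_of_mem hy]
      gcongr
      exact ENNReal.ofReal_le_ofReal hk2
    have h2 : ∀ k : ℕ, ∫⁻ y in Metric.ball x ((2 : ℝ) ^ k / 2 ^ j), f y ≤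
        ENNReal.ofReal (((2 : ℝ) ^ k / 2 ^ j) ^ n) * volume (Metric.ball (0 : E n) 1) * MM f x := by
      intro k
      have hr : (0 : ℝ) < 2 ^ k / 2 ^ j := by positivity
      refine (int_ball_le f x _ hr).trans ?_
      rw [Measure.addHaar_ball_of_pos volume x hr, finrank_euclideanSpace_fin]
    calc cv j m f x = ∫⁻ y, eta j m (x - y) * f y := rfl
      _ ≤ ∫⁻ y, ∑' k : ℕ, ENNReal.ofReal ((2 : ℝ) ^ (j * n) * (2 ^ m * ((2 : ℝ) ^ (-m)) ^ k)) *
          (Metric.ball x ((2 : ℝ) ^ k / 2 ^ j)).indicator f y := lintegral_mono h1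
      _ = ∑' k : ℕ, ∫⁻ y, ENNReal.ofReal ((2 : ℝ) ^ (j * n) * (2 ^ m * ((2 : ℝ) ^ (-m)) ^ k)) *
          (Metric.ball x ((2 : ℝ) ^ k / 2 ^ j)).indicator f y := by
          apply lintegral_tsum
          intro k
          exact ((hf.indicator measurableSet_ball).const_mul _).aemeasurable
      _ = ∑' k : ℕ, ENNReal.ofReal ((2 : ℝ) ^ (j * n) * (2 ^ m * ((2 : ℝ) ^ (-m)) ^ k)) *
          ∫⁻ y in Metric.ball x ((2 : ℝ) ^ k / 2 ^ j), f y := by
          congr 1
          funext k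
          rw [lintegral_const_mul _ (hf.indicator measurableSet_ball),
            lintegral_indicator measurableSet_ball]
      _ ≤ ∑' k : ℕ, ENNReal.ofReal ((2 : ℝ) ^ m * q ^ k) *
          (volume (Metric.ball (0 : E n) 1) * MM f x) := by
          apply ENNReal.tsum_le_tsum
          intro k
          refine (mul_le_mul_of_nonneg_left (h2 k) zero_le).trans (le_of_eq ?_)
          rw [← mul_assoc, ← mul_assoc, ← ENNReal.ofReal_mul (by positivity), mul_assoc]
          congr 2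
          rw [hq, div_pow, ← pow_mul, ← pow_mul]
          have e1 : (2 : ℝ) ^ ((n : ℝ) - m) = 2 ^ n * 2 ^ (-m) := by
            rw [sub_eq_add_neg, Real.rpow_add (by norm_num), Real.rpow_natCast]
          rw [e1, mul_pow, ← pow_mul, mul_comm n k]
          field_simp
      _ = (∑' k : ℕ, ENNReal.ofReal ((2 : ℝ) ^ m * q ^ k)) * volume (Metric.ball (0 : E n) 1) *
          MM f x := by
          rw [ENNReal.tsum_mul_right, mul_assoc]

end Pool.Agent.Helper3.VT.KER
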