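import Pool.Agent.H25.VT.Spec

set_option autoImplicit false

open MeasureTheory
open scoped ENNReal NNReal SchwartzMap FourierTransform

namespace Pool.Agent.Helper3.VT.LQ

open Pool.Agent.H25.VT

theorem toReal_pos {q : ℝ≥0∞} (h : 0 < q) (h' : q ≠ ∞) : 0 < q.toReal :=
  ENNReal.toReal_pos h.ne' h'

theorem lq_top (a : ℕ → ℝ≥0∞) : lq ∞ a = ⨆ j, a j := by
  unfold lq
  rw [if_pos rfl]

theorem lq_ne {q : ℝ≥0∞} (h : q ≠ ∞) (a : ℕ → ℝ≥0∞) :
    lq q a = (∑' j, a j ^ q.toReal) ^ (1 / q.toReal) := by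
  unfold lq
  rw [if_neg h]

theorem mono (q : ℝ≥0∞) (a b : ℕ → ℝ≥0∞) (hq : 0 < q) (h : ∀ j, a j ≤ b j) : lq q a ≤ lq q b := by
  by_cases h' : q = ∞
  · subst h'
    rw [lq_top, lq_top]
    exact iSup_mono h
  · rw [lq_ne h', lq_ne h']
    have h0 := toReal_pos hq h'
    exact ENNReal.rpow_le_rpow (ENNReal.tsum_le_tsum fun j => ENNReal.rpow_le_rpow (h j) h0.le)
      (by positivity)

theorem homog (q : ℝ≥0∞) (c : ℝ≥0∞) (a : ℕ → ℝ≥0∞) (hq : 0 < q) :
    lq q (fun j => c * a j) = c * lq q a := by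
  by_cases h' : q = ∞
  · subst h'
    rw [lq_top, lq_top, ENNReal.mul_iSup]
  · rw [lq_ne h', lq_ne h']
    have h0 := toReal_pos hq h'
    have h1 : ∀ j, (c * a j) ^ q.toReal = c ^ q.toReal * a j ^ q.toReal := fun j =>
      ENNReal.mul_rpow_of_nonneg _ _ h0.le
    simp_rw [h1]
    rw [ENNReal.tsum_mul_left, ENNReal.mul_rpow_of_nonneg _ _ (by positivity), ← ENNReal.rpow_mul,
      mul_one_div_cancel h0.ne', ENNReal.rpow_one]

theorem power (q : ℝ≥0∞) (r : ℝ) (a : ℕ → ℝ≥0∞) (hq : 0 < q) (hr : 0 < r) :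
    lq (q / ENNReal.ofReal r) (fun j => a j ^ r) = lq q a ^ r := by
  by_cases h' : q = ∞
  · subst h'
    rw [ENNReal.top_div_of_ne_top ENNReal.ofReal_ne_top, lq_top, lq_top]
    have := (ENNReal.orderIsoRpow r hr).map_iSup a
    exact this.symm
  · have hr0 : ENNReal.ofReal r ≠ 0 := by
      rw [Ne, ENNReal.ofReal_eq_zero]; linarith
    have h2 : q / ENNReal.ofReal r ≠ ∞ := ENNReal.div_ne_top h' hr0
    rw [lq_ne h', lq_ne h2]
    have h0 := toReal_pos hq h'
    have e : (q / ENNReal.ofReal r).toReal = q.toReal / r := by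
      rw [ENNReal.toReal_div, ENNReal.toReal_ofReal hr.le]
    rw [e]
    have h1 : ∀ j, (a j ^ r) ^ (q.toReal / r) = a j ^ q.toReal := fun j => by
      rw [← ENNReal.rpow_mul]
      congr 1
      field_simp
    simp_rw [h1]
    rw [← ENNReal.rpow_mul]
    congr 1
    field_simp

theorem shift (b : ℕ → ℝ≥0∞) : ∑' j, ∑ i ∈ Finset.Icc (j - 1) (j + 1), b i ≤ 4 * ∑' j, b j := by
  have h1 : ∀ j : ℕ, ∑ i ∈ Finset.Icc (j - 1) (j + 1), b i ≤ b (j - 1) + b j + b (j + 1) := by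
    intro j
    rcases j with _ | k
    · have hs : Finset.Icc (0 - 1) (0 + 1) = ({0, 1} : Finset ℕ) := by decide
      rw [hs, Finset.sum_pair (by norm_num)]
      show b 0 + b 1 ≤ b 0 + b 0 + b 1
      gcongr
      exact le_add_self
    · have hs : Finset.Icc (k + 1 - 1) (k + 1 + 1) = ({k, k + 1, k + 2} : Finset ℕ) := by
        ext i
        simp only [Finset.mem_Icc, Finset.mem_insert, Finset.mem_singleton]
        omega
      rw [hs, Finset.sum_insert (by simp), Finset.sum_pair (by simp)]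
      simp only [Nat.add_sub_cancel]
      rw [add_assoc]
  have h2 : ∑' j : ℕ, b (j - 1) ≤ 2 * ∑' j, b j := by
    rw [tsum_eq_zero_add' ENNReal.summable]
    simp only [Nat.zero_sub, Nat.add_sub_cancel]
    rw [two_mul]
    gcongr
    exact ENNReal.le_tsum 0
  have h3 : ∑' j : ℕ, b (j + 1) ≤ ∑' j, b j := by
    conv_rhs => rw [tsum_eq_zero_add' ENNReal.summable]
    exact le_add_self
  calc ∑' j, ∑ i ∈ Finset.Icc (j - 1) (j + 1), b i ≤ ∑' j : ℕ, (b (j - 1) + b j + b (j + 1)) :=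
        ENNReal.tsum_le_tsum h1
    _ = ∑' j : ℕ, b (j - 1) + ∑' j, b j + ∑' j : ℕ, b (j + 1) := by
        rw [ENNReal.tsum_add, ENNReal.tsum_add]
    _ ≤ 2 * ∑' j, b j + ∑' j, b j + ∑' j, b j := by gcongr
    _ = 4 * ∑' j, b j := by ring

theorem three (q : ℝ≥0∞) (a : ℕ → ℝ≥0∞) (hq : 1 ≤ q) :
    lq q (fun j => ∑ i ∈ Finset.Icc (j - 1) (j + 1), a i) ≤ 9 * lq q a := by
  have hcard : ∀ j : ℕ, (Finset.Icc (j - 1) (j + 1)).card ≤ 3 := by
    intro j
    rw [Nat.card_Icc]; omega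
  by_cases h' : q = ∞
  · subst h'
    rw [lq_top, lq_top]
    apply iSup_le
    intro j
    calc ∑ i ∈ Finset.Icc (j - 1) (j + 1), a i ≤ ∑ i ∈ Finset.Icc (j - 1) (j + 1), ⨆ k, a k :=
          Finset.sum_le_sum fun i _ => le_iSup a i
      _ = ((Finset.Icc (j - 1) (j + 1)).card : ℝ≥0∞) * ⨆ k, a k := by
          rw [Finset.sum_const, nsmul_eq_mul]
      _ ≤ 9 * ⨆ k, a k := by
          gcongr
          have : ((Finset.Icc (j - 1) (j + 1)).card : ℝ≥0∞) ≤ (3 : ℕ) := by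
            exact_mod_cast hcard j
          refine this.trans ?_
          norm_num
  · rw [lq_ne h', lq_ne h']
    have h1 : 1 ≤ q.toReal := by
      rw [← ENNReal.toReal_one]
      exact ENNReal.toReal_mono h' hq
    set s := q.toReal with hs
    have h0 : 0 < s := by linarith
    have h2 : ∀ j : ℕ, (∑ i ∈ Finset.Icc (j - 1) (j + 1), a i) ^ s ≤
        4 ^ (s - 1) * ∑ i ∈ Finset.Icc (j - 1) (j + 1), a i ^ s := by
      intro j
      refine (ENNReal.rpow_sum_le_const_mul_sum_rpow _ _ h1).trans ?_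
      gcongr
      · have : ((Finset.Icc (j - 1) (j + 1)).card : ℝ≥0∞) ≤ (3 : ℕ) := by
          exact_mod_cast hcard j
        refine this.trans ?_
        norm_num
    have h3 : ∑' j : ℕ, (∑ i ∈ Finset.Icc (j - 1) (j + 1), a i) ^ s ≤ 4 ^ s * ∑' j, a j ^ s := by
      calc ∑' j : ℕ, (∑ i ∈ Finset.Icc (j - 1) (j + 1), a i) ^ s
          ≤ ∑' j : ℕ, 4 ^ (s - 1) * ∑ i ∈ Finset.Icc (j - 1) (j + 1), a i ^ s :=
            ENNReal.tsum_le_tsum h2
        _ = 4 ^ (s - 1) * ∑' j : ℕ, ∑ i ∈ Finset.Icc (j - 1) (j + 1), a i ^ s :=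
            ENNReal.tsum_mul_left
        _ ≤ 4 ^ (s - 1) * (4 * ∑' j, a j ^ s) := by
            gcongr
            exact shift (fun i => a i ^ s)
        _ = 4 ^ s * ∑' j, a j ^ s := by
            rw [← mul_assoc]
            congr 1
            have : (4 : ℝ≥0∞) ^ s = 4 ^ (s - 1) * 4 ^ (1 : ℝ) := by
              rw [← ENNReal.rpow_add _ _ (by norm_num) (by norm_num)]
              congr 1; ring
            rw [this, ENNReal.rpow_one]
    calc (∑' j : ℕ, (∑ i ∈ Finset.Icc (j - 1) (j + 1), a i) ^ s) ^ (1 / s)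
        ≤ (4 ^ s * ∑' j, a j ^ s) ^ (1 / s) := ENNReal.rpow_le_rpow h3 (by positivity)
      _ = 4 * (∑' j, a j ^ s) ^ (1 / s) := by
          rw [ENNReal.mul_rpow_of_nonneg _ _ (by positivity), ← ENNReal.rpow_mul,
            mul_one_div_cancel h0.ne', ENNReal.rpow_one]
      _ ≤ 9 * (∑' j, a j ^ s) ^ (1 / s) := by
          gcongr
          norm_num

theorem main : S_LQ := ⟨mono, homog, power, three⟩

end Pool.Agent.Helper3.VT.LQ
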