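import Pool.Agent.H25.VT.Spec

set_option autoImplicit false

open MeasureTheory
open scoped ENNReal NNReal SchwartzMap FourierTransform

namespace Pool.Agent.Helper3.VT.MEAS

open Pool.Agent.H25.VT

theorem lsc_int {n : ℕ} (f : E n → ℝ≥0∞) (t : ℝ) :
    LowerSemicontinuous (fun x : E n => ∫⁻ y in Metric.ball x t, f y) := by
  intro x c hc
  have hU : Metric.ball x t = ⋃ k : ℕ, Metric.ball x (t - 1 / ((k : ℝ) + 1)) := by
    ext y
    simp only [Metric.mem_ball, Set.mem_iUnion]
    constructor
    · intro hy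
      obtain ⟨k, hk⟩ := exists_nat_one_div_lt (show 0 < t - dist y x by linarith)
      exact ⟨k, by linarith⟩
    · rintro ⟨k, hk⟩
      have : (0 : ℝ) < 1 / ((k : ℝ) + 1) := by positivity
      linarith
  have hd : Directed (· ⊆ ·) (fun k : ℕ => Metric.ball x (t - 1 / ((k : ℝ) + 1))) := by
    apply Monotone.directed_le
    intro a b hab
    apply Metric.ball_subset_ball
    have : 1 / ((b : ℝ) + 1) ≤ 1 / ((a : ℝ) + 1) := by
      apply one_div_le_one_div_of_le (by positivity)
      have : (a : ℝ) ≤ b := by exact_mod_cast hab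
      linarith
    linarith
  have hc' : c < ∫⁻ y in Metric.ball x t, f y := hc
  rw [hU, setLIntegral_iUnion_of_directed _ hd] at hc'
  obtain ⟨k, hk⟩ := lt_iSup_iff.1 hc'
  have hpos : (0 : ℝ) < 1 / ((k : ℝ) + 1) := by positivity
  filter_upwards [Metric.ball_mem_nhds x hpos] with y hy
  refine lt_of_lt_of_le hk (lintegral_mono_set ?_)
  apply Metric.ball_subset_ball'
  rw [Metric.mem_ball, dist_comm] at hy
  linarith

theorem lsc_MM {n : ℕ} (f : E n → ℝ≥0∞) : LowerSemicontinuous (MM f) := by
  unfold MM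
  apply lowerSemicontinuous_iSup
  intro t
  apply lowerSemicontinuous_iSup
  intro ht
  have h1 : (fun x : E n => (volume (Metric.ball x t))⁻¹ * ∫⁻ y in Metric.ball x t, f y) =
      fun x : E n => (volume (Metric.ball (0 : E n) t))⁻¹ * ∫⁻ y in Metric.ball x t, f y := by
    funext x
    rw [Measure.addHaar_ball_center]
  rw [h1]
  have hc : (volume (Metric.ball (0 : E n) t))⁻¹ ≠ ∞ := by
    rw [ENNReal.inv_ne_top]
    exact (Metric.measure_ball_pos volume 0 ht).ne'
  exact (ENNReal.continuous_const_mul hc).comp_lowerSemicontinuous (lsc_int f t)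
    (fun a b hab => by
      show _ * a ≤ _ * b
      gcongr)

theorem main : S_MEAS := fun n f _ => (lsc_MM f).measurable

end Pool.Agent.Helper3.VT.MEAS
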